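import Mathlib
import Pool.Agent.MP_dfda4f_nt.wl.Final6
import Pool.Agent.MP_dfda4f_nt.wl.Sieve6

open Polynomial Pool.Agent.MP_dfda4f_nt.Wl

theorem Pool.Agent.Results.MP_dfda4f_nt.PolyMultiple.result (p : ℕ) (hp : p.Prime)
    (h : 4096 ≤ p) :
    ∃ (f : (ZMod 2)[X]) (d : ℕ), d = 5 * p * (2 ^ p - 1) ∧ f.natDegree = d ∧
      f ∣ X ^ (2 ^ d - 1) + 1 ∧ (∀ t : ℕ, 0 < t → t < 2 ^ d - 1 → ¬ f ∣ X ^ t + 1) ∧
      f ∣ X ^ (2 ^ (6 * p) + 1) + X ^ (2 ^ (5 * p) + 2 ^ p) + 1 ∧ 2 ^ (6 * p) + 1 ≤ d ^ 6 := by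
  let _ : Fintype (GaloisField 2 (5 * p)) := Fintype.ofFinite _
  have hK : Fintype.card (GaloisField 2 (5 * p)) = 2 ^ (5 * p) := by
    rw [← Nat.card_eq_fintype_card, GaloisField.card 2 _ (by omega)]
  obtain ⟨x, hx, ht⟩ := exists6 (GaloisField 2 (5 * p)) (AlgebraicClosure (GaloisField 2 (5 * p)))
    p (by omega) hK (sieve6 p hp h)
  have h2 : 2 ^ 1 ≤ 2 ^ p := Nat.pow_le_pow_right (by norm_num) (by omega)
  have h3 : 2 * 2 ^ p ≤ 5 * p * (2 ^ p - 1) :=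
    le_trans (by omega) (Nat.mul_le_mul_right _ (by omega : 4 ≤ 5 * p))
  obtain ⟨f, h4, h5, h6, h7⟩ := poly6 _ _ _ (by omega) x hx ht
  refine ⟨f, _, rfl, h4, h5, h6, h7, le_trans ?_ (Nat.pow_le_pow_left h3 6)⟩
  rw [mul_pow, ← pow_mul, mul_comm p]
  have : 0 < 2 ^ (6 * p) := by positivity
  omega
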