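import Mathlib
import Pool.Agent.MP_dfda4f_nt.h19.QDown
import Pool.Agent.MP_dfda4f_nt.wl.Sieve8

open Polynomial Pool.Agent.MP_dfda4f_nt

theorem Pool.Agent.Results.MP_dfda4f_nt.Quadrinomial.result (p : ℕ) (hp : p.Prime)
    (h : 2 ^ 20 ≤ p) :
    ∃ (q M N r : ℕ) (f g : (ZMod 2)[X]), q = 2 ^ (8 * p) ∧
      M = ∑ i ∈ Finset.range (2 ^ p + 1), q ^ i ∧ N = q * M - 1 ∧ r = q ^ 2 ^ (p - 1) ∧
      0 < q - 1 ∧ q - 1 < M - 1 ∧ M - 1 < N ∧
      Irreducible f ∧ f ∣ X ^ N + X ^ (M - 1) + X ^ (q - 1) + 1 ∧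
      f.natDegree = 8 * p * M ∧ (N : ℝ) ≤ f.natDegree * Real.logb 2 N ^ 8 ∧
      (∀ t : ℕ, 0 < t → t < 2 ^ r → ¬ f ∣ X ^ t + 1) ∧ √(N : ℝ) ≤ r * Real.logb 2 N ^ 4 ∧
      g.natDegree = 8 * p ∧ f = g.comp (X ^ M + X) ∧
      (f.support.card : ℝ) ≤ 81 * Real.logb 2 (Real.logb 2 f.natDegree) ^ Real.logb 2 3 := by
  let _ : Fintype (GaloisField 2 (8 * p)) := Fintype.ofFinite _
  have hK : Fintype.card (GaloisField 2 (8 * p)) = 2 ^ (8 * p) := by
    rw [← Nat.card_eq_fintype_card, GaloisField.card 2 _ (by omega)]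
  obtain ⟨x, hx, ht⟩ := Wl.exists8 (GaloisField 2 (8 * p))
    (AlgebraicClosure (GaloisField 2 (8 * p))) p (by omega) hK (Wl.sieve8 p hp h)
  obtain ⟨k, hk⟩ : ∃ k, k = 2 ^ (p - 1) := ⟨_, rfl⟩
  have hk1 : 1 ≤ k := hk ▸ Nat.one_le_two_pow
  have hs : 2 ^ p = 2 * k := by
    rw [hk, ← pow_succ', Nat.sub_add_cancel (by omega)]
  obtain ⟨q, hq⟩ : ∃ q, q = 2 ^ (8 * p) := ⟨_, rfl⟩
  obtain ⟨M, hM⟩ : ∃ M, M = ∑ i ∈ Finset.range (2 * k + 1), q ^ i := ⟨_, rfl⟩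
  have hq1 : 2 ≤ q := hq ▸ Nat.one_lt_two_pow (by omega)
  have hM0 : (q - 1) * M = q ^ (2 * k + 1) - 1 := by
    rw [hM, Nat.geomSum_eq hq1, Nat.mul_div_cancel' (Nat.sub_one_dvd_pow_sub_one _ _)]
  have hM1 : q ^ (2 * k) ≤ M := by
    rw [hM, Finset.sum_range_succ]; omega
  have hq2 : q < q ^ (2 * k) := by
    conv_lhs => rw [← pow_one q]
    exact Nat.pow_lt_pow_right hq1 (by omega)
  have hqM : 2 * M ≤ q * M := Nat.mul_le_mul_right _ hq1
  have hM2 : q * M ≤ 2 * q ^ (2 * k + 1) := by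
    have : (q - 1) * M = q * M - M := Nat.sub_one_mul _ _
    omega
  rw [hs] at hx ht
  obtain ⟨g, h1, h2, h3, h4⟩ := Q4.down (F := GaloisField 2 (8 * p)) (8 * p) k M (by omega) hk1
    hK (by omega) (by rw [← hq, hM0]) x hx ht
  rw [← hq] at h3 h4
  have hd : (g.comp (X ^ M + X)).natDegree = 8 * p * M := by
    rw [natDegree_comp, (Q4.bin_monic (by omega)).2, h1]
  have hMd : M ≤ 8 * p * M := Nat.le_mul_of_pos_left _ (by omega)
  have hpw : 2 ^ (4 * k) ≤ q ^ (2 * k) := by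
    rw [hq, ← pow_mul]
    exact Nat.pow_le_pow_right (by norm_num) (by nlinarith)
  have hlog : ∀ n : ℕ, q ^ (2 * k) ≤ n → ((4 * k : ℕ) : ℝ) ≤ Real.logb 2 n := fun n hn => by
    rw [Real.le_logb_iff_rpow_le (by norm_num) (by exact_mod_cast (by omega : 0 < n)),
      Real.rpow_natCast]
    exact_mod_cast hpw.trans hn
  have h8 : (4 * k) ^ 8 = 256 * q := by
    rw [hq, mul_comm 8 p, pow_mul, hs]; ring
  have hL := hlog (q * M - 1) (by omega)
  refine ⟨q, M, _, q ^ k, _, g, hq, by rw [hs, hM], rfl, by rw [hk], by omega, by omega, by omega,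
    h2, h3, hd, ?_, h4, ?_, h1, rfl, ?_⟩
  · have a1 : q * M - 1 ≤ 8 * p * M * (4 * k) ^ 8 := by
      have : q * M ≤ 8 * p * M * (256 * q) := by
        rw [mul_comm q M]
        exact Nat.mul_le_mul hMd (by omega)
      rw [h8]; omega
    rw [hd]
    refine le_trans (by exact_mod_cast a1 : _ ≤ ((8 * p * M : ℕ) : ℝ) * ((4 * k : ℕ) : ℝ) ^ 8) ?_
    gcongr
  · have a1 : q * M - 1 ≤ (q ^ k * (4 * k) ^ 4) ^ 2 := by
      have : (q ^ k * (4 * k) ^ 4) ^ 2 = 256 * q ^ (2 * k + 1) := by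
        rw [mul_pow, ← pow_mul (4 * k), h8]; ring
      omega
    refine le_trans (Real.sqrt_le_iff.2 ⟨by positivity, by exact_mod_cast a1⟩ :
      _ ≤ ((q ^ k : ℕ) : ℝ) * ((4 * k : ℕ) : ℝ) ^ 4) ?_
    gcongr
  · have h6 := Wl.weight_comp M (Nat.log 2 p + 4) g (by
      have := Nat.lt_pow_succ_log_self (b := 2) (by norm_num) p
      rw [h1, pow_add]
      rw [pow_succ] at this
      omega)
    have h7 : (2 : ℝ) ^ Nat.log 2 p ≤
        Real.logb 2 (Real.logb 2 ((g.comp (X ^ M + X)).natDegree : ℝ)) := by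
      have a1 : 2 ^ Nat.log 2 p ≤ p := Nat.pow_log_le_self 2 (by omega)
      have a2 := hlog _ (hM1.trans (hMd.trans hd.ge))
      have a3 : (2 : ℝ) ^ p ≤ ((4 * k : ℕ) : ℝ) := by exact_mod_cast (by omega : 2 ^ p ≤ 4 * k)
      refine le_trans (by exact_mod_cast a1 : _ ≤ (p : ℝ)) ?_
      rw [Real.le_logb_iff_rpow_le (by norm_num) (lt_of_lt_of_le (by positivity) (a3.trans a2)),
        Real.rpow_natCast]
      exact a3.trans a2
    have h8 := Real.rpow_le_rpow (by positivity) h7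
      (Real.logb_nonneg (b := 2) (x := 3) (by norm_num) (by norm_num))
    rw [← Real.rpow_natCast, ← Real.rpow_mul (by norm_num), mul_comm (Nat.log 2 p : ℝ),
      Real.rpow_mul (by norm_num), Real.rpow_logb (by norm_num) (by norm_num) (by norm_num),
      Real.rpow_natCast] at h8
    have h9 : ((g.comp (X ^ M + X)).support.card : ℝ) ≤ 3 ^ (Nat.log 2 p + 4) := by
      exact_mod_cast h6
    rw [pow_add] at h9
    linarith
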