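import Mathlib
import Pool.Agent.MP_dfda4f_nt.wl.Sparse
import Pool.Agent.MP_dfda4f_nt.wl.Sieve8

open Polynomial Pool.Agent.MP_dfda4f_nt.Wl

theorem Pool.Agent.Results.MP_dfda4f_nt.SparsePrimitive.result (p : ℕ) (hp : p.Prime)
    (h : 2 ^ 20 ≤ p) :
    ∃ (f g : (ZMod 2)[X]) (n : ℕ), n = 8 * p * (2 ^ p + 1) ∧ f.natDegree = n ∧
      f ∣ X ^ (2 ^ n - 1) + 1 ∧ (∀ t : ℕ, 0 < t → t < 2 ^ n - 1 → ¬ f ∣ X ^ t + 1) ∧
      g.natDegree = 8 * p ∧ f = g.comp (X ^ (2 ^ p + 1) + X) ∧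
      f.support.card ≤ 3 ^ (Nat.log 2 p + 4) ∧
      (f.support.card : ℝ) ≤ 81 * Real.logb 2 n ^ Real.logb 2 3 := by
  let _ : Fintype (GaloisField 2 (8 * p)) := Fintype.ofFinite _
  have hK : Fintype.card (GaloisField 2 (8 * p)) = 2 ^ (8 * p) := by
    rw [← Nat.card_eq_fintype_card, GaloisField.card 2 _ (by omega)]
  obtain ⟨x, hx, ht⟩ := exists8 (GaloisField 2 (8 * p)) (AlgebraicClosure (GaloisField 2 (8 * p)))
    p (by omega) hK (sieve8 p hp h)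
  have h0 : 0 < 2 ^ p := by positivity
  obtain ⟨h1, h2, h3⟩ := poly8 _ (Nat.mul_pos (by omega) (by omega)) x hx
  obtain ⟨g, h4, h5⟩ := comp8 _ _ (by omega) (by omega) x hx ht
  have h6 := weight_comp (2 ^ p + 1) (Nat.log 2 p + 4) g (by
    have := Nat.lt_pow_succ_log_self (b := 2) (by norm_num) p
    rw [h4, pow_add]
    rw [pow_succ] at this
    omega)
  rw [h5] at h6
  refine ⟨_, g, _, rfl, h1, h2, h3, h4, h5.symm, h6, ?_⟩
  have h7 : (2 : ℝ) ^ Nat.log 2 p ≤ Real.logb 2 ((8 * p * (2 ^ p + 1) : ℕ) : ℝ) := by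
    have a1 : 2 ^ Nat.log 2 p ≤ p := Nat.pow_log_le_self 2 (by omega)
    have a2 : 2 ^ p ≤ 8 * p * (2 ^ p + 1) :=
      le_trans (by omega) (Nat.le_mul_of_pos_left (2 ^ p + 1) (by omega))
    refine le_trans (by exact_mod_cast a1 : _ ≤ (p : ℝ)) ?_
    rw [Real.le_logb_iff_rpow_le (by norm_num) (by exact_mod_cast lt_of_lt_of_le h0 a2),
      Real.rpow_natCast]
    exact_mod_cast a2
  have h8 := Real.rpow_le_rpow (by positivity) h7
    (Real.logb_nonneg (b := 2) (x := 3) (by norm_num) (by norm_num))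
  rw [← Real.rpow_natCast, ← Real.rpow_mul (by norm_num), mul_comm (Nat.log 2 p : ℝ),
    Real.rpow_mul (by norm_num), Real.rpow_logb (by norm_num) (by norm_num) (by norm_num),
    Real.rpow_natCast] at h8
  have h9 : ((minpoly (ZMod 2) x).support.card : ℝ) ≤ 3 ^ (Nat.log 2 p + 4) := by
    exact_mod_cast h6
  rw [pow_add] at h9
  linarith
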