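import Mathlib
import Pool.Agent.MP_dfda4f_nt.Kron

open Polynomial Pool.Agent.MP_dfda4f_nt.Kron

theorem Pool.Agent.Results.MP_dfda4f_nt.SqrtOrder.result (k : ℕ) (hk : 0 < k) :
    ∃ p : (ZMod 2)[X], Irreducible p ∧ p ∣ X ^ (4 ^ k + 1) + X ^ (2 ^ (k + 1)) + 1 ∧
      ∀ t : ℕ, 0 < t → t < (2 * 2 ^ k).choose (2 ^ k) → ¬ p ∣ X ^ t + 1 := by
  obtain ⟨a, ha⟩ := exists_root k hk
  have hi : IsIntegral F (rt k a) := Algebra.IsIntegral.isIntegral _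
  refine ⟨minpoly F (rt k a), minpoly.irreducible hi, minpoly.dvd _ _ (rt_root hk ha),
    fun t h0 ht h => absurd (order_le hk ha h0 ?_) (not_le.2 ht)⟩
  have := aeval_eq_zero_of_dvd_aeval_eq_zero h (minpoly.aeval F (rt k a))
  rw [← sub_eq_zero, CharTwo.sub_eq_add]
  simpa using this
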